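import Mathlib
import Pool.Agent.TH559.LE.Red

set_option autoImplicit false

/-! Extending total colourings from distance-3 matchings: the reductions. -/

namespace Pool.Agent.X267.TC

open Finset
open Pool.Agent.TH559.LE (Ok dg dg_eq dg_mono dg_lt ext)

variable {V : Type}

/-- a precoloured distance-3 matching `M` in a graph `G` of maximum degree at most `k`, with
`k + 1` colours -/
structure Pre (G M : SimpleGraph V) (k : ℕ) (ψ₀ : V → ℕ) (c₀ : Sym2 V → ℕ) : Prop where
  le : M ≤ G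
  mat : ∀ u v w, M.Adj u v → M.Adj u w → v = w
  far1 : ∀ x y, x ∈ M.support → y ∈ M.support → G.Adj x y → M.Adj x y
  far2 : ∀ x y z, x ∈ M.support → y ∈ M.support → G.Adj x z → G.Adj y z → x = y ∨ M.Adj x y
  deg : ∀ v, dg G v ≤ k
  vcol : ∀ v ∈ M.support, ψ₀ v < k + 1
  ecol : ∀ u v, M.Adj u v → c₀ s(u, v) < k + 1
  vv : ∀ u v, M.Adj u v → ψ₀ u ≠ ψ₀ v
  ve : ∀ u v, M.Adj u v → c₀ s(u, v) ≠ ψ₀ u

section
variable [Fintype V]
open Classical

/-- the colours of the ends of an edge which are not in `X` -/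
noncomputable def vc (X : V → Prop) (ψ : V → ℕ) (e : Sym2 V) : Finset ℕ :=
  (univ.filter (fun w => w ∈ e ∧ ¬ X w)).image ψ

/-- the colours of the edges of `M` at the ends of an edge -/
noncomputable def mc (M : SimpleGraph V) (c₀ : Sym2 V → ℕ) (e : Sym2 V) : Finset ℕ :=
  ((univ : Finset (V × V)).filter (fun p => p.1 ∈ e ∧ M.Adj p.1 p.2)).image
    (fun p => c₀ s(p.1, p.2))

/-- the lists of the edges -/
noncomputable def LL (M : SimpleGraph V) (k : ℕ) (c₀ : Sym2 V → ℕ) (X : V → Prop) (ψ : V → ℕ)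
    (e : Sym2 V) : Finset ℕ :=
  range (k + 1) \ (vc X ψ e ∪ mc M c₀ e)

/-- a colouring of the vertices and of the edges of `K` -/
def Good (G M : SimpleGraph V) (k : ℕ) (ψ₀ : V → ℕ) (c₀ : Sym2 V → ℕ) (K : SimpleGraph V) :
    Prop :=
  ∃ (ψ : V → ℕ) (c : Sym2 V → ℕ), (∀ v ∈ M.support, ψ v = ψ₀ v) ∧ (∀ v, ψ v < k + 1) ∧
    (∀ v, v ∉ M.support → ∀ w ∈ M.support, G.Adj v w → ψ v ≠ ψ₀ w) ∧
    (∀ u v, K.Adj u v → ψ u ≠ ψ v) ∧ Ok K (LL M k c₀ (fun _ => False) ψ) c

variable {G M : SimpleGraph V} {k : ℕ} {ψ₀ : V → ℕ} {c₀ : Sym2 V → ℕ}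

/-- the colours at the neighbours in the matching -/
noncomputable def phi (G M : SimpleGraph V) (ψ₀ : V → ℕ) (x : V) : Finset ℕ :=
  (univ.filter (fun w => w ∈ M.support ∧ G.Adj x w)).image ψ₀

theorem phi_card (h : Pre G M k ψ₀ c₀) (x : V) : (phi G M ψ₀ x).card ≤ 2 := by
  refine Finset.card_image_le.trans ?_
  by_cases hne : (univ.filter (fun w => w ∈ M.support ∧ G.Adj x w)).Nonempty
  · obtain ⟨w, hw⟩ := hne
    obtain ⟨-, hw1, hw2⟩ := Finset.mem_filter.1 hw
    obtain ⟨w', hw'⟩ := (SimpleGraph.mem_support M).1 hw1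
    refine (Finset.card_le_card (t := {w, w'}) ?_).trans Finset.card_le_two
    intro y hy
    obtain ⟨-, hy1, hy2⟩ := Finset.mem_filter.1 hy
    rw [Finset.mem_insert, Finset.mem_singleton]
    rcases h.far2 w y x hw1 hy1 hw2.symm hy2.symm with h3 | h3
    · exact Or.inl h3.symm
    · exact Or.inr (h.mat w y w' h3 hw')
  · rw [Finset.not_nonempty_iff_eq_empty] at hne
    rw [hne]
    simp

theorem mc_card (h : Pre G M k ψ₀ c₀) {x y : V} (hx : x ∉ M.support) :
    (mc M c₀ s(x, y)).card ≤ if y ∈ M.support then 1 else 0 := by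
  have hsub : mc M c₀ s(x, y) ⊆ (univ.filter (fun w => M.Adj y w)).image (fun w => c₀ s(y, w)) := by
    intro c hc
    obtain ⟨p, hp, rfl⟩ := Finset.mem_image.1 hc
    obtain ⟨-, hp1, hp2⟩ := Finset.mem_filter.1 hp
    rw [Sym2.mem_iff] at hp1
    rcases hp1 with h1 | h1
    · exact absurd ((SimpleGraph.mem_support M).2 ⟨p.2, h1 ▸ hp2⟩) hx
    · refine Finset.mem_image.2 ⟨p.2, ?_, ?_⟩
      · rw [Finset.mem_filter]
        exact ⟨Finset.mem_univ _, h1 ▸ hp2⟩
      · rw [h1]
  refine (Finset.card_le_card hsub).trans (Finset.card_image_le.trans ?_)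
  split_ifs with hy
  · rw [Finset.card_le_one]
    intro a ha b hb
    exact h.mat y a b (Finset.mem_filter.1 ha).2 (Finset.mem_filter.1 hb).2
  · rw [Nat.le_zero, Finset.card_eq_zero, Finset.filter_eq_empty_iff]
    intro w _ hw
    exact hy ((SimpleGraph.mem_support M).2 ⟨w, hw⟩)

theorem mem_LL {X : V → Prop} {ψ : V → ℕ} {u v : V} {a : ℕ} :
    a ∈ LL M k c₀ X ψ s(u, v) ↔ a < k + 1 ∧ (¬ X u → a ≠ ψ u) ∧ (¬ X v → a ≠ ψ v) ∧
      (∀ w, M.Adj u w → a ≠ c₀ s(u, w)) ∧ (∀ w, M.Adj v w → a ≠ c₀ s(v, w)) := by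
  unfold LL vc mc
  rw [Finset.mem_sdiff, Finset.mem_range, Finset.mem_union, not_or, Finset.mem_image,
    Finset.mem_image]
  constructor
  · rintro ⟨h1, h2, h3⟩
    refine ⟨h1, fun hu he => h2 ⟨u, ?_, he.symm⟩, fun hv he => h2 ⟨v, ?_, he.symm⟩,
      fun w hw he => h3 ⟨(u, w), ?_, he.symm⟩, fun w hw he => h3 ⟨(v, w), ?_, he.symm⟩⟩
    · simp [hu]
    · simp [hv]
    · simp [hw]
    · simp [hw]
  · rintro ⟨h1, h2, h3, h4, h5⟩
    refine ⟨h1, ?_, ?_⟩
    · rintro ⟨w, hw, he⟩
      obtain ⟨-, hw1, hw2⟩ := Finset.mem_filter.1 hw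
      rw [Sym2.mem_iff] at hw1
      rcases hw1 with rfl | rfl
      · exact h2 hw2 he.symm
      · exact h3 hw2 he.symm
    · rintro ⟨p, hp, he⟩
      obtain ⟨-, hp1, hp2⟩ := Finset.mem_filter.1 hp
      rw [Sym2.mem_iff] at hp1
      rcases hp1 with h6 | h6
      · rw [h6] at hp2 he
        exact h4 _ hp2 he.symm
      · rw [h6] at hp2 he
        exact h5 _ hp2 he.symm

theorem mem_vc {X : V → Prop} {ψ : V → ℕ} {u v : V} {a : ℕ} (ha : a ∈ vc X ψ s(u, v)) :
    (¬ X u ∧ a = ψ u) ∨ (¬ X v ∧ a = ψ v) := by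
  obtain ⟨w, hw, rfl⟩ := Finset.mem_image.1 ha
  obtain ⟨-, hw1, hw2⟩ := Finset.mem_filter.1 hw
  rw [Sym2.mem_iff] at hw1
  rcases hw1 with rfl | rfl
  · exact Or.inl ⟨hw2, rfl⟩
  · exact Or.inr ⟨hw2, rfl⟩

/-- recolouring an independent set of vertices of small degree -/
theorem recolour (h : Pre G M k ψ₀ c₀) {K : SimpleGraph V} (X : V → Prop)
    (hX1 : ∀ x, X x → x ∉ M.support) (hX2 : ∀ x y, X x → K.Adj x y → ¬ X y)
    (hX3 : ∀ x, X x → 2 * dg K x + 2 ≤ k) (ψ : V → ℕ) (c : Sym2 V → ℕ)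
    (h1 : ∀ v ∈ M.support, ψ v = ψ₀ v) (h2 : ∀ v, ψ v < k + 1)
    (h3 : ∀ v, v ∉ M.support → ∀ w ∈ M.support, G.Adj v w → ψ v ≠ ψ₀ w)
    (h4 : ∀ u v, K.Adj u v → ¬ X u → ¬ X v → ψ u ≠ ψ v) (h5 : Ok K (LL M k c₀ X ψ) c) :
    Good G M k ψ₀ c₀ K := by
  have hex : ∀ x, X x → ∃ a < k + 1, (∀ y, K.Adj x y → a ≠ ψ y) ∧
      (∀ y, K.Adj x y → a ≠ c s(x, y)) ∧ a ∉ phi G M ψ₀ x := by
    intro x hx
    set B : Finset ℕ := (univ.filter (fun y => K.Adj x y)).image ψ ∪
      (univ.filter (fun y => K.Adj x y)).image (fun y => c s(x, y)) ∪ phi G M ψ₀ x with hB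
    have hBc : B.card < (range (k + 1)).card := by
      rw [Finset.card_range]
      have e1 : (univ.filter (fun y => K.Adj x y)).card = dg K x := (dg_eq K x).symm
      have e2 : ((univ.filter (fun y => K.Adj x y)).image ψ).card ≤ dg K x :=
        Finset.card_image_le.trans e1.le
      have e3 : ((univ.filter (fun y => K.Adj x y)).image (fun y => c s(x, y))).card ≤ dg K x :=
        Finset.card_image_le.trans e1.le
      have e4 := phi_card h x
      have e5 := Finset.card_union_le ((univ.filter (fun y => K.Adj x y)).image ψ ∪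
        (univ.filter (fun y => K.Adj x y)).image (fun y => c s(x, y))) (phi G M ψ₀ x)
      have e6 := Finset.card_union_le ((univ.filter (fun y => K.Adj x y)).image ψ)
        ((univ.filter (fun y => K.Adj x y)).image (fun y => c s(x, y)))
      have e7 := hX3 x hx
      rw [← hB] at e5
      omega
    obtain ⟨a, ha1, ha2⟩ := Finset.exists_mem_notMem_of_card_lt_card hBc
    rw [Finset.mem_range] at ha1
    rw [hB, Finset.mem_union, Finset.mem_union, not_or, not_or] at ha2
    refine ⟨a, ha1, fun y hy he => ha2.1.1 ?_, fun y hy he => ha2.1.2 ?_, ha2.2⟩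
    · exact Finset.mem_image.2 ⟨y, by simp [hy], he.symm⟩
    · exact Finset.mem_image.2 ⟨y, by simp [hy], he.symm⟩
  choose! f hf1 hf2 hf3 hf4 using hex
  refine ⟨fun v => if X v then f v else ψ v, c, ?_, ?_, ?_, ?_, ?_, ?_⟩
  · intro v hv
    have : ¬ X v := fun hx => hX1 v hx hv
    simp only [if_neg this]
    exact h1 v hv
  · intro v
    by_cases hv : X v
    · simp only [if_pos hv]
      exact hf1 v hv
    · simp only [if_neg hv]
      exact h2 v
  · intro v hv w hw hvw
    by_cases hx : X v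
    · simp only [if_pos hx]
      intro he
      apply hf4 v hx
      exact Finset.mem_image.2 ⟨w, by simp [hw, hvw], he.symm⟩
    · simp only [if_neg hx]
      exact h3 v hv w hw hvw
  · intro u v huv
    by_cases hu : X u
    · have hv := hX2 u v hu huv
      simp only [if_pos hu, if_neg hv]
      exact hf2 u hu v huv
    · by_cases hv : X v
      · simp only [if_neg hu, if_pos hv]
        exact (hf2 v hv u huv.symm).symm
      · simp only [if_neg hu, if_neg hv]
        exact h4 u v huv hu hv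
  · intro u v huv
    have h6 := h5.1 u v huv
    rw [mem_LL] at h6 ⊢
    obtain ⟨a1, a2, a3, a4, a5⟩ := h6
    refine ⟨a1, fun _ => ?_, fun _ => ?_, a4, a5⟩
    · by_cases hu : X u
      · simp only [if_pos hu]
        exact (hf3 u hu v huv).symm
      · simp only [if_neg hu]
        exact a2 hu
    · by_cases hv : X v
      · simp only [if_pos hv]
        have := hf3 v hv u huv.symm
        rw [Sym2.eq_swap] at this
        exact this.symm
      · simp only [if_neg hv]
        exact a3 hv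
  · exact h5.2

/-- the general step: new edges between an independent set `X` of vertices of small degree and its
complement -/
theorem step (h : Pre G M k ψ₀ c₀) {K A : SimpleGraph V} (hK : K ≤ G \ M) (hA : A ≤ K)
    (X : V → Prop) (hX1 : ∀ x, X x → x ∉ M.support) (hX2 : ∀ x y, X x → K.Adj x y → ¬ X y)
    (hX3 : ∀ x, X x → 2 * dg K x + 2 ≤ k)
    (hX4 : ∀ u v, K.Adj u v → ¬ A.Adj u v → X u ∨ X v)
    (hX5 : ∀ x y, X x → K.Adj x y → ¬ A.Adj x y →
      dg K x + dg A y + (if y ∈ M.support then 1 else 0) ≤ k ∧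
      dg K y + dg A x + (if y ∈ M.support then 1 else 0) ≤ k)
    (hg : Good G M k ψ₀ c₀ A) : Good G M k ψ₀ c₀ K := by
  obtain ⟨ψ, c, h1, h2, h3, h4, h5⟩ := hg
  have hcard : ∀ x y, X x → K.Adj x y → ¬ X y →
      k ≤ (LL M k c₀ X ψ s(x, y)).card + (if y ∈ M.support then 1 else 0) := by
    intro x y hx hxy hy
    have e1 : (vc X ψ s(x, y)).card ≤ 1 := by
      have hsub : vc X ψ s(x, y) ⊆ {ψ y} := by
        intro a ha
        rcases mem_vc ha with ⟨h6, -⟩ | ⟨-, rfl⟩
        · exact absurd hx h6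
        · exact Finset.mem_singleton_self _
      exact (Finset.card_le_card hsub).trans (Finset.card_singleton _).le
    have e2 := mc_card h (y := y) (hX1 x hx)
    have e3 := Finset.card_union_le (vc X ψ s(x, y)) (mc M c₀ s(x, y))
    have e4 := Finset.card_le_card_sdiff_add_card (t := vc X ψ s(x, y) ∪ mc M c₀ s(x, y))
      (s := range (k + 1))
    rw [Finset.card_range] at e4
    unfold LL
    omega
  obtain ⟨c', hc'⟩ := ext A K hA X (by
      intro u v huv hnuv
      rcases hX4 u v huv hnuv with hu | hv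
      · exact ⟨fun _ => hX2 u v hu huv, fun _ => hu⟩
      · exact ⟨fun hu => absurd hv (hX2 u v hu huv), fun hn => absurd hv hn⟩)
    (LL M k c₀ X ψ) (by
      intro u v huv hnuv
      rcases hX4 u v huv hnuv with hu | hv
      · have := hcard u v hu huv (hX2 u v hu huv)
        have := (hX5 u v hu huv hnuv).1
        omega
      · have h6 := hcard v u hv huv.symm (hX2 v u hv huv.symm)
        have h7 := (hX5 v u hv huv.symm (fun hh => hnuv hh.symm)).2
        rw [Sym2.eq_swap] at h6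
        omega) c (by
      refine ⟨fun u v huv => ?_, h5.2⟩
      have h6 := h5.1 u v huv
      rw [mem_LL] at h6 ⊢
      exact ⟨h6.1, fun _ => h6.2.1 (fun hh => hh), fun _ => h6.2.2.1 (fun hh => hh), h6.2.2.2.1,
        h6.2.2.2.2⟩)
  refine recolour h X hX1 hX2 hX3 ψ c' h1 h2 h3 ?_ hc'
  intro u v huv hu hv
  by_cases hA' : A.Adj u v
  · exact h4 u v hA'
  · rcases hX4 u v huv hA' with h6 | h6
    · exact absurd h6 hu
    · exact absurd h6 hv

theorem dg_delete {K : SimpleGraph V} {x y : V} (hxy : K.Adj x y) :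
    dg (K.deleteEdges {s(x, y)}) x + 1 ≤ dg K x ∧ dg (K.deleteEdges {s(x, y)}) y + 1 ≤ dg K y := by
  have h1 : ¬ (K.deleteEdges {s(x, y)}).Adj x y := by
    rw [SimpleGraph.deleteEdges_adj]
    push Not
    intro _
    exact Set.mem_singleton _
  exact ⟨dg_lt (SimpleGraph.deleteEdges_le _) hxy h1,
    dg_lt (SimpleGraph.deleteEdges_le _) hxy.symm (fun hh => h1 hh.symm)⟩

omit [Fintype V] in
theorem adj_delete {K : SimpleGraph V} {x y u v : V} (huv : K.Adj u v)
    (hn : ¬ (K.deleteEdges {s(x, y)}).Adj u v) : (u = x ∧ v = y) ∨ (u = y ∧ v = x) := by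
  rw [SimpleGraph.deleteEdges_adj] at hn
  push Not at hn
  have := hn huv
  rwa [Set.mem_singleton_iff, Sym2.eq_iff] at this

/-- one new edge at a vertex of small degree outside the matching -/
theorem single (h : Pre G M k ψ₀ c₀) {K : SimpleGraph V} (hK : K ≤ G \ M) {x y : V}
    (hxy : K.Adj x y) (hx : x ∉ M.support) (h3 : 2 * dg K x + 2 ≤ k)
    (h5 : dg K x + dg K y + (if y ∈ M.support then 1 else 0) ≤ k + 1)
    (hg : Good G M k ψ₀ c₀ (K.deleteEdges {s(x, y)})) : Good G M k ψ₀ c₀ K := by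
  obtain ⟨d1, d2⟩ := dg_delete hxy
  refine step h hK (SimpleGraph.deleteEdges_le _) (fun u => u = x) ?_ ?_ ?_ ?_ ?_ hg
  · rintro u rfl
    exact hx
  · rintro u v rfl huv hv
    exact huv.ne hv.symm
  · rintro u rfl
    exact h3
  · intro u v huv hn
    rcases adj_delete huv hn with ⟨rfl, rfl⟩ | ⟨rfl, rfl⟩
    · exact Or.inl rfl
    · exact Or.inr rfl
  · rintro u v rfl huv hn
    rcases adj_delete huv hn with ⟨-, rfl⟩ | ⟨rfl, rfl⟩
    · constructor <;> omega
    · exact absurd rfl huv.ne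

/-- one new edge at the matching -/
theorem single' (h : Pre G M k ψ₀ c₀) {K : SimpleGraph V} (hK : K ≤ G \ M) {w x : V}
    (hwx : K.Adj w x) (hw : w ∈ M.support) (hx : x ∉ M.support)
    (h5 : dg K w + dg K x + 1 ≤ k)
    (hg : Good G M k ψ₀ c₀ (K.deleteEdges {s(w, x)})) : Good G M k ψ₀ c₀ K := by
  obtain ⟨d1, d2⟩ := dg_delete hwx
  obtain ⟨ψ, c, h1, h2, h3, h4, h6⟩ := hg
  have hcard : k ≤ (LL M k c₀ (fun _ => False) ψ s(w, x)).card + 2 := by
    have e1 : (vc (fun _ => False) ψ s(w, x)).card ≤ 2 := by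
      have hsub : vc (fun _ => False) ψ s(w, x) ⊆ {ψ w, ψ x} := by
        intro a ha
        rw [Finset.mem_insert, Finset.mem_singleton]
        rcases mem_vc ha with ⟨-, rfl⟩ | ⟨-, rfl⟩
        · exact Or.inl rfl
        · exact Or.inr rfl
      exact (Finset.card_le_card hsub).trans Finset.card_le_two
    have e2 := mc_card h (y := w) hx
    rw [if_pos hw, Sym2.eq_swap] at e2
    have e3 := Finset.card_union_le (vc (fun _ => False) ψ s(w, x)) (mc M c₀ s(w, x))
    have e4 := Finset.card_le_card_sdiff_add_card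
      (t := vc (fun _ => False) ψ s(w, x) ∪ mc M c₀ s(w, x)) (s := range (k + 1))
    rw [Finset.card_range] at e4
    unfold LL
    omega
  obtain ⟨c', hc'⟩ := ext (K.deleteEdges {s(w, x)}) K (SimpleGraph.deleteEdges_le _)
    (fun u => u = w) (by
      intro u v huv hn
      rcases adj_delete huv hn with ⟨rfl, rfl⟩ | ⟨rfl, rfl⟩
      · simp [hwx.ne.symm]
      · simp [hwx.ne.symm]) (LL M k c₀ (fun _ => False) ψ) (by
      intro u v huv hn
      rcases adj_delete huv hn with ⟨rfl, rfl⟩ | ⟨rfl, rfl⟩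
      · omega
      · have e7 : LL M k c₀ (fun _ => False) ψ s(u, v) = LL M k c₀ (fun _ => False) ψ s(v, u) := by
          rw [Sym2.eq_swap]
        rw [e7]
        omega) c h6
  refine ⟨ψ, c', h1, h2, h3, ?_, hc'⟩
  intro u v huv
  by_cases hA : (K.deleteEdges {s(w, x)}).Adj u v
  · exact h4 u v hA
  · have hG : G.Adj w x := (hK hwx).1
    have h7 := h3 x hx w hw hG.symm
    rcases adj_delete huv hA with ⟨rfl, rfl⟩ | ⟨rfl, rfl⟩
    · rw [h1 u hw]
      exact h7.symm
    · rw [h1 v hw]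
      exact h7

/-- the start: no edges -/
theorem good_bot (h : Pre G M k ψ₀ c₀) (hk : 2 ≤ k) : Good G M k ψ₀ c₀ ⊥ := by
  have hex : ∀ x : V, ∃ a < k + 1, a ∉ phi G M ψ₀ x := by
    intro x
    have hBc : (phi G M ψ₀ x).card < (range (k + 1)).card := by
      rw [Finset.card_range]
      have := phi_card h x
      omega
    obtain ⟨a, ha1, ha2⟩ := Finset.exists_mem_notMem_of_card_lt_card hBc
    exact ⟨a, Finset.mem_range.1 ha1, ha2⟩
  choose f hf1 hf2 using hex
  refine ⟨fun v => if v ∈ M.support then ψ₀ v else f v, fun _ => 0, ?_, ?_, ?_, ?_, ?_, ?_⟩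
  · intro v hv
    simp only [if_pos hv]
  · intro v
    by_cases hv : v ∈ M.support
    · simp only [if_pos hv]
      exact h.vcol v hv
    · simp only [if_neg hv]
      exact hf1 v
  · intro v hv w hw hvw
    simp only [if_neg hv]
    intro he
    apply hf2 v
    exact Finset.mem_image.2 ⟨w, by simp [hw, hvw], he.symm⟩
  · intro u v huv
    exact absurd huv (by simp)
  · intro u v huv
    exact absurd huv (by simp)
  · intro u v w huv
    exact absurd huv (by simp)

end

end Pool.Agent.X267.TC
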