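import Mathlib
import Pool.Agent.X267.TC.Basic

set_option autoImplicit false

/-! Extending total colourings from distance-3 matchings: definitions and the final assembly. -/

namespace Pool.Agent.X267.TC

open Pool.Agent.TH559.LE (Ok dg dg_eq dg_mono dg_lt ext)

variable {V : Type}

/-- `ψ` (on the vertices in `S`) and `c` (on the edges of `F`) form a total colouring of the graph
`F` with vertex set `S` and with the colours `0, ..., K - 1` -/
structure TotalColouring (F : SimpleGraph V) (S : Set V) (K : ℕ) (ψ : V → ℕ) (c : Sym2 V → ℕ) :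
    Prop where
  vertex_lt : ∀ v ∈ S, ψ v < K
  edge_lt : ∀ e ∈ F.edgeSet, c e < K
  vertices : ∀ u v, F.Adj u v → ψ u ≠ ψ v
  incident : ∀ e ∈ F.edgeSet, ∀ v ∈ e, c e ≠ ψ v
  edges : ∀ e ∈ F.edgeSet, ∀ f ∈ F.edgeSet, e ≠ f → (∃ v, v ∈ e ∧ v ∈ f) → c e ≠ c f

/-- `M` is a distance-3 matching in `G`: its edges are vertex-disjoint, and two vertices covered by
different edges of `M` are at distance at least three in `G` -/
structure DistanceThreeMatching (G M : SimpleGraph V) : Prop where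
  le : M ≤ G
  matching : ∀ u v w, M.Adj u v → M.Adj u w → v = w
  far : ∀ x ∈ M.support, ∀ y ∈ M.support, x ≠ y → ¬ M.Adj x y → 3 ≤ G.edist x y

/-- every total colouring of `M` with `K` colours extends to a total colouring of `G` with `K`
colours -/
def AllExtend (G M : SimpleGraph V) (K : ℕ) : Prop :=
  ∀ (ψ₀ : V → ℕ) (c₀ : Sym2 V → ℕ), TotalColouring M M.support K ψ₀ c₀ →
    ∃ (ψ : V → ℕ) (c : Sym2 V → ℕ), TotalColouring G Set.univ K ψ c ∧
      (∀ v ∈ M.support, ψ v = ψ₀ v) ∧ ∀ e ∈ M.edgeSet, c e = c₀ e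

variable {G M : SimpleGraph V}

theorem far1_of (h : DistanceThreeMatching G M) (x y : V) (hx : x ∈ M.support)
    (hy : y ∈ M.support) (hxy : G.Adj x y) : M.Adj x y := by
  by_contra hn
  have h1 := h.far x hx y hy hxy.ne hn
  have h2 : G.edist x y ≤ (hxy.toWalk.length : ℕ∞) := SimpleGraph.edist_le _
  have h3 : (3 : ℕ∞) ≤ ((1 : ℕ) : ℕ∞) := h1.trans (by simpa using h2)
  have h4 : (3 : ℕ) ≤ 1 := by exact_mod_cast h3
  omega

theorem far2_of (h : DistanceThreeMatching G M) (x y z : V) (hx : x ∈ M.support)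
    (hy : y ∈ M.support) (hxz : G.Adj x z) (hyz : G.Adj y z) : x = y ∨ M.Adj x y := by
  by_contra hn
  push Not at hn
  have h1 := h.far x hx y hy hn.1 hn.2
  have h2 : G.edist x y ≤ ((SimpleGraph.Walk.cons hxz hyz.symm.toWalk).length : ℕ∞) :=
    SimpleGraph.edist_le _
  have h3 : (3 : ℕ∞) ≤ ((2 : ℕ) : ℕ∞) := h1.trans (by simpa using h2)
  have h4 : (3 : ℕ) ≤ 2 := by exact_mod_cast h3
  omega

theorem pre_of [Fintype V] (h : DistanceThreeMatching G M) {k : ℕ} (hΔ : ∀ v, dg G v ≤ k)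
    {ψ₀ : V → ℕ} {c₀ : Sym2 V → ℕ} (h₀ : TotalColouring M M.support (k + 1) ψ₀ c₀) :
    Pre G M k ψ₀ c₀ where
  le := h.le
  mat := h.matching
  far1 := fun x y hx hy hxy => far1_of h x y hx hy hxy
  far2 := fun x y z hx hy hxz hyz => far2_of h x y z hx hy hxz hyz
  deg := hΔ
  vcol := h₀.vertex_lt
  ecol := fun u v huv => h₀.edge_lt _ ((SimpleGraph.mem_edgeSet M).2 huv)
  vv := h₀.vertices
  ve := fun u v huv => h₀.incident _ ((SimpleGraph.mem_edgeSet M).2 huv) u (Sym2.mem_mk_left u v)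

open Classical in
theorem assemble [Fintype V] (h : DistanceThreeMatching G M) {k : ℕ} {ψ₀ : V → ℕ}
    {c₀ : Sym2 V → ℕ} (h₀ : TotalColouring M M.support (k + 1) ψ₀ c₀)
    (hg : Good G M k ψ₀ c₀ (G \ M)) :
    ∃ (ψ : V → ℕ) (c : Sym2 V → ℕ), TotalColouring G Set.univ (k + 1) ψ c ∧
      (∀ v ∈ M.support, ψ v = ψ₀ v) ∧ ∀ e ∈ M.edgeSet, c e = c₀ e := by
  obtain ⟨ψ, c, h1, h2, -, h4, h5, h6⟩ := hg
  have hsup : ∀ u v, M.Adj u v → u ∈ M.support := fun u v huv =>
    (SimpleGraph.mem_support M).2 ⟨v, huv⟩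
  have hadj : ∀ u v, G.Adj u v → ¬ M.Adj u v → (G \ M).Adj u v := fun u v huv hn => ⟨huv, hn⟩
  refine ⟨ψ, fun e => if e ∈ M.edgeSet then c₀ e else c e, ⟨fun v _ => h2 v, ?_, ?_, ?_, ?_⟩, h1,
    ?_⟩
  · intro e he
    induction e using Sym2.ind with
    | _ u v =>
    by_cases hM : s(u, v) ∈ M.edgeSet
    · simp only [if_pos hM]
      exact h₀.edge_lt _ hM
    · simp only [if_neg hM]
      exact (mem_LL.1 (h5 u v (hadj u v he hM))).1
  · intro u v huv
    by_cases hM : M.Adj u v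
    · rw [h1 u (hsup u v hM), h1 v (hsup v u hM.symm)]
      exact h₀.vertices u v hM
    · exact h4 u v (hadj u v huv hM)
  · intro e he w hw
    obtain ⟨v, rfl⟩ := hw
    by_cases hM : s(w, v) ∈ M.edgeSet
    · simp only [if_pos hM]
      rw [h1 w (hsup w v hM)]
      exact h₀.incident _ hM w (Sym2.mem_mk_left w v)
    · simp only [if_neg hM]
      exact (mem_LL.1 (h5 w v (hadj w v he hM))).2.1 (fun hh => hh)
  · rintro e he f hf hef ⟨u, ⟨v, rfl⟩, ⟨w, rfl⟩⟩
    have hvw : v ≠ w := fun hh => hef (by rw [hh])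
    by_cases hM : s(u, v) ∈ M.edgeSet
    · by_cases hM' : s(u, w) ∈ M.edgeSet
      · exact absurd (h.matching u v w hM hM') hvw
      · simp only [if_pos hM, if_neg hM']
        have h7 := (mem_LL.1 (h5 u w (hadj u w hf hM'))).2.2.2.1 v hM
        exact h7.symm
    · by_cases hM' : s(u, w) ∈ M.edgeSet
      · simp only [if_neg hM, if_pos hM']
        exact (mem_LL.1 (h5 u v (hadj u v he hM))).2.2.2.1 w hM'
      · simp only [if_neg hM, if_neg hM']
        exact h6 u v w (hadj u v he hM) (hadj u w hf hM') hvw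
  · intro e he
    simp only [if_pos he]

end Pool.Agent.X267.TC
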