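import Mathlib
import Pool.Agent.X267.TC.Final

set_option autoImplicit false

/-! Extending total colourings from distance-3 matchings: bipartite graphs. -/

namespace Pool.Agent.X267.TC

open Finset
open Pool.Agent.TH559.LE (Ok dg dg_eq dg_mono dg_lt ext)

variable {V : Type} [Fintype V]
variable {G M : SimpleGraph V} {k : ℕ} {ψ₀ : V → ℕ} {c₀ : Sym2 V → ℕ}

open Classical

/-- greedy extension of a vertex colouring -/
theorem greedy_vertices (G : SimpleGraph V) (K : ℕ) (hK : ∀ v, dg G v < K) (D : Set V)
    (f : V → ℕ) (hf : ∀ v ∈ D, f v < K) (hp : ∀ u ∈ D, ∀ v ∈ D, G.Adj u v → f u ≠ f v) :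
    ∃ ψ : V → ℕ, (∀ v ∈ D, ψ v = f v) ∧ (∀ v, ψ v < K) ∧ ∀ u v, G.Adj u v → ψ u ≠ ψ v := by
  have key : ∀ T : Finset V, ∃ ψ : V → ℕ, (∀ v ∈ D, ψ v = f v) ∧ (∀ v, v ∈ D ∨ v ∈ T → ψ v < K) ∧
      ∀ u v, (u ∈ D ∨ u ∈ T) → (v ∈ D ∨ v ∈ T) → G.Adj u v → ψ u ≠ ψ v := by
    intro T
    induction T using Finset.induction_on with
    | empty =>
      refine ⟨f, fun v _ => rfl, ?_, ?_⟩
      · rintro v (hv | hv)
        · exact hf v hv
        · simp at hv
      · rintro u v (hu | hu) (hv | hv) huv
        · exact hp u hu v hv huv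
        · simp at hv
        · simp at hu
        · simp at hu
    | insert a T ha ih =>
      obtain ⟨ψ, h1, h2, h3⟩ := ih
      by_cases haD : a ∈ D
      · refine ⟨ψ, h1, ?_, ?_⟩
        · intro v hv
          apply h2
          rcases hv with hv | hv
          · exact Or.inl hv
          · rcases Finset.mem_insert.1 hv with rfl | hv
            · exact Or.inl haD
            · exact Or.inr hv
        · intro u v hu hv
          apply h3
          · rcases hu with hu | hu
            · exact Or.inl hu
            · rcases Finset.mem_insert.1 hu with rfl | hu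
              · exact Or.inl haD
              · exact Or.inr hu
          · rcases hv with hv | hv
            · exact Or.inl hv
            · rcases Finset.mem_insert.1 hv with rfl | hv
              · exact Or.inl haD
              · exact Or.inr hv
      · have hB : ((univ.filter (fun y => G.Adj a y)).image ψ).card < (range K).card := by
          rw [Finset.card_range]
          refine lt_of_le_of_lt Finset.card_image_le ?_
          rw [← dg_eq]
          exact hK a
        obtain ⟨c, hc1, hc2⟩ := Finset.exists_mem_notMem_of_card_lt_card hB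
        rw [Finset.mem_range] at hc1
        have hc3 : ∀ y, G.Adj a y → c ≠ ψ y := fun y hy he =>
          hc2 (Finset.mem_image.2 ⟨y, by simp [hy], he.symm⟩)
        refine ⟨fun v => if v = a then c else ψ v, ?_, ?_, ?_⟩
        · intro v hv
          have : v ≠ a := fun h => haD (h ▸ hv)
          simp only [if_neg this]
          exact h1 v hv
        · intro v hv
          by_cases hva : v = a
          · simp only [if_pos hva]
            exact hc1
          · simp only [if_neg hva]
            apply h2
            rcases hv with hv | hv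
            · exact Or.inl hv
            · rcases Finset.mem_insert.1 hv with h | hv
              · exact absurd h hva
              · exact Or.inr hv
        · intro u v hu hv huv
          by_cases hua : u = a
          · have hva : v ≠ a := fun h => huv.ne (hua.trans h.symm)
            simp only [if_pos hua, if_neg hva]
            exact hc3 v (hua ▸ huv)
          · by_cases hva : v = a
            · simp only [if_neg hua, if_pos hva]
              exact (hc3 u (hva ▸ huv.symm)).symm
            · simp only [if_neg hua, if_neg hva]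
              refine h3 u v ?_ ?_ huv
              · rcases hu with hu | hu
                · exact Or.inl hu
                · rcases Finset.mem_insert.1 hu with h | hu
                  · exact absurd h hua
                  · exact Or.inr hu
              · rcases hv with hv | hv
                · exact Or.inl hv
                · rcases Finset.mem_insert.1 hv with h | hv
                  · exact absurd h hva
                  · exact Or.inr hv
  obtain ⟨ψ, h1, h2, h3⟩ := key univ
  exact ⟨ψ, h1, fun v => h2 v (Or.inr (Finset.mem_univ _)),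
    fun u v => h3 u v (Or.inr (Finset.mem_univ _)) (Or.inr (Finset.mem_univ _))⟩

/-- the vertex colouring: the neighbours of full degree of the matching get the colours of the
edges of the matching -/
theorem vertex_colouring (h : Pre G M (k + 1) ψ₀ c₀) (hdeg : ∀ v, dg G v ≤ k)
    (F : V → Prop) (hF : ∀ x, F x → x ∉ M.support)
    (hstar : ∀ x y u u' v v', F x → F y → G.Adj x y →
      G.Adj x u → M.Adj u u' → G.Adj y v → M.Adj v v' → c₀ s(u, u') ≠ c₀ s(v, v')) :
    ∃ ψ : V → ℕ, (∀ v ∈ M.support, ψ v = ψ₀ v) ∧ (∀ v, ψ v < k + 2) ∧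
      (∀ u v, G.Adj u v → ψ u ≠ ψ v) ∧
      ∀ x u u', F x → G.Adj x u → M.Adj u u' → ψ x = c₀ s(u, u') := by
  -- the colour at a neighbour of the matching
  have huniq : ∀ x u u' v v', G.Adj x u → M.Adj u u' → G.Adj x v → M.Adj v v' →
      s(u, u') = s(v, v') := by
    intro x u u' v v' h1 h2 h3 h4
    rcases h.far2 u v x ((SimpleGraph.mem_support M).2 ⟨u', h2⟩)
      ((SimpleGraph.mem_support M).2 ⟨v', h4⟩) h1.symm h3.symm with rfl | h5
    · rw [h.mat u u' v' h2 h4]
    · have e1 := h.mat u u' v h2 h5
      have e2 := h.mat v v' u h4 h5.symm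
      rw [e1, e2]
      exact Sym2.eq_swap
  have hex : ∀ x : V, ∃ a, ∀ u u', G.Adj x u → M.Adj u u' → a = c₀ s(u, u') := by
    intro x
    by_cases hx : ∃ u u', G.Adj x u ∧ M.Adj u u'
    · obtain ⟨u, u', h1, h2⟩ := hx
      exact ⟨c₀ s(u, u'), fun v v' h3 h4 => by rw [huniq x u u' v v' h1 h2 h3 h4]⟩
    · push Not at hx
      exact ⟨0, fun u u' h1 h2 => absurd h2 (hx u u' h1)⟩
  choose g hg using hex
  obtain ⟨ψ, h1, h2, h3⟩ := greedy_vertices G (k + 2) (fun v => by have := hdeg v; omega)
    ({v | v ∈ M.support} ∪ {v | F v ∧ ∃ u u', G.Adj v u ∧ M.Adj u u'})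
    (fun v => if v ∈ M.support then ψ₀ v else g v) (by
      rintro v (hv | ⟨hv, u, u', h1, h2⟩)
      · have hv' : v ∈ M.support := hv
        simp only [if_pos hv']
        exact h.vcol v hv'
      · simp only [if_neg (hF v hv)]
        rw [hg v u u' h1 h2]
        exact h.ecol u u' h2) (by
      rintro x (hx | ⟨hx, u, u', h1, h2⟩) y (hy | ⟨hy, v, v', h3, h4⟩) hxy
      · have hx' : x ∈ M.support := hx
        have hy' : y ∈ M.support := hy
        simp only [if_pos hx', if_pos hy']
        exact h.vv x y (h.far1 x y hx' hy' hxy)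
      · have hx' : x ∈ M.support := hx
        simp only [if_pos hx', if_neg (hF y hy)]
        obtain ⟨x', hx''⟩ := (SimpleGraph.mem_support M).1 hx'
        rw [hg y x x' hxy.symm hx'']
        exact (h.ve x x' hx'').symm
      · have hy' : y ∈ M.support := hy
        simp only [if_pos hy', if_neg (hF x hx)]
        obtain ⟨y', hy''⟩ := (SimpleGraph.mem_support M).1 hy'
        rw [hg x y y' hxy hy'']
        exact h.ve y y' hy''
      · simp only [if_neg (hF x hx), if_neg (hF y hy)]
        rw [hg x u u' h1 h2, hg y v v' h3 h4]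
        exact hstar x y u u' v v' hx hy hxy h1 h2 h3 h4)
  refine ⟨ψ, fun v hv => ?_, h2, h3, fun x u u' hx h4 h5 => ?_⟩
  · rw [h1 v (Or.inl hv)]
    simp only [if_pos hv]
  · rw [h1 x (Or.inr ⟨hx, u, u', h4, h5⟩)]
    simp only [if_neg (hF x hx)]
    exact hg x u u' h4 h5

/-- the lists are long -/
theorem card_LL_le (h : Pre G M (k + 1) ψ₀ c₀) (hdeg : ∀ v, dg G v ≤ k) (F : V → Prop)
    (hfull : ∀ x, x ∉ M.support → dg G x = k → F x) (ψ : V → ℕ)
    (h4 : ∀ x u u', F x → G.Adj x u → M.Adj u u' → ψ x = c₀ s(u, u')) {x y : V}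
    (hxy : (G \ M).Adj x y) (hx : x ∉ M.support) :
    max (dg (G \ M) x) (dg (G \ M) y) ≤ (LL M (k + 1) c₀ (fun _ => False) ψ s(x, y)).card := by
  have hle : G \ M ≤ G := fun a b hab => hab.1
  have d1 := dg_mono hle x
  have d2 := dg_mono hle y
  have d3 := hdeg x
  have d4 := hdeg y
  have e4 := Finset.card_le_card_sdiff_add_card
    (t := vc (fun _ => False) ψ s(x, y) ∪ mc M c₀ s(x, y)) (s := range (k + 1 + 1))
  rw [Finset.card_range] at e4
  have e1 : (vc (fun _ => False) ψ s(x, y)) ⊆ {ψ x, ψ y} := by
    intro a ha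
    rw [Finset.mem_insert, Finset.mem_singleton]
    rcases mem_vc ha with ⟨-, rfl⟩ | ⟨-, rfl⟩
    · exact Or.inl rfl
    · exact Or.inr rfl
  have e2 := mc_card h (y := y) hx
  have e3 := Finset.card_union_le (vc (fun _ => False) ψ s(x, y)) (mc M c₀ s(x, y))
  have e5 := (Finset.card_le_card e1).trans Finset.card_le_two
  unfold LL
  by_cases hy : y ∈ M.support
  · rw [if_pos hy] at e2
    obtain ⟨y', hy'⟩ := (SimpleGraph.mem_support M).1 hy
    have d5 : dg (G \ M) y < dg G y := dg_lt hle (h.le hy') (fun h2 => h2.2 hy')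
    by_cases hxf : dg G x = k
    · -- the colour of the edge of the matching is a vertex colour
      have e6 : mc M c₀ s(x, y) ⊆ {ψ x, ψ y} := by
        intro a ha
        obtain ⟨p, hp, rfl⟩ := Finset.mem_image.1 ha
        obtain ⟨-, hp1, hp2⟩ := Finset.mem_filter.1 hp
        rw [Sym2.mem_iff] at hp1
        rcases hp1 with h1 | h1
        · exact absurd ((SimpleGraph.mem_support M).2 ⟨p.2, h1 ▸ hp2⟩) hx
        · rw [Finset.mem_insert]
          left
          rw [h1] at hp2 ⊢
          exact (h4 x y p.2 (hfull x hx hxf) (hle hxy) hp2).symm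
      have e7 := (Finset.card_le_card (Finset.union_subset e1 e6)).trans Finset.card_le_two
      rw [max_le_iff]
      constructor <;> omega
    · rw [max_le_iff]
      constructor <;> omega
  · rw [if_neg hy] at e2
    rw [max_le_iff]
    constructor <;> omega

/-- **bipartite graphs** -/
theorem bipartite (h : Pre G M (k + 1) ψ₀ c₀) (hdeg : ∀ v, dg G v ≤ k) (X : V → Prop)
    (hX : ∀ u v, G.Adj u v → ¬ M.Adj u v → (X u ↔ ¬ X v))
    (hstar : ∀ x y u u' v v', x ∉ M.support → y ∉ M.support → dg G x = k → dg G y = k →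
      G.Adj x y → G.Adj x u → M.Adj u u' → G.Adj y v → M.Adj v v' →
      c₀ s(u, u') ≠ c₀ s(v, v')) :
    Good G M (k + 1) ψ₀ c₀ (G \ M) := by
  obtain ⟨ψ, h1, h2, h3, h4⟩ := vertex_colouring h hdeg (fun x => x ∉ M.support ∧ dg G x = k)
    (fun x hx => hx.1) (fun x y u u' v v' hx hy => hstar x y u u' v v' hx.1 hy.1 hx.2 hy.2)
  have hout : ∀ u v, (G \ M).Adj u v → u ∉ M.support ∨ v ∉ M.support := by
    intro u v huv
    by_contra hc
    push Not at hc
    exact huv.2 (h.far1 u v hc.1 hc.2 huv.1)
  have hbot : ∀ v, dg (⊥ : SimpleGraph V) v = 0 := by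
    intro v
    rw [dg_eq, Finset.card_eq_zero, Finset.filter_eq_empty_iff]
    intro w _ hw
    exact absurd hw (by simp)
  obtain ⟨c, hc⟩ := ext ⊥ (G \ M) bot_le X (fun u v huv _ => hX u v huv.1 huv.2)
    (LL M (k + 1) c₀ (fun _ => False) ψ) (by
      intro u v huv _
      rw [hbot, add_zero]
      rcases hout u v huv with hu | hv
      · exact (le_max_left _ _).trans (card_LL_le h hdeg (fun x => x ∉ M.support ∧ dg G x = k)
          (fun x hx hxk => ⟨hx, hxk⟩) ψ h4 huv hu)
      · have h6 := (le_max_right _ _).trans (card_LL_le h hdeg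
          (fun x => x ∉ M.support ∧ dg G x = k) (fun x hx hxk => ⟨hx, hxk⟩) ψ h4 huv.symm hv)
        rw [Sym2.eq_swap] at h6
        exact h6) (fun _ => 0) ⟨fun u v huv => absurd huv (by simp),
          fun u v w huv => absurd huv (by simp)⟩
  refine ⟨ψ, c, h1, h2, ?_, ?_, hc⟩
  · intro v _ w hw hvw
    rw [← h1 w hw]
    exact h3 v w hvw
  · intro u v huv
    exact h3 u v huv.1

end Pool.Agent.X267.TC
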