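import Mathlib
import Pool.Agent.X267.TC.Basic

set_option autoImplicit false

/-! Extending total colourings from distance-3 matchings: sparse graphs. -/

namespace Pool.Agent.X267.TC

open Finset
open Pool.Agent.TH559.LE (Ok dg dg_eq dg_mono dg_lt ext)

variable {V : Type} [Fintype V]
variable {G M : SimpleGraph V} {k : ℕ} {ψ₀ : V → ℕ} {c₀ : Sym2 V → ℕ}

open Classical

theorem deg_supp (h : Pre G M k ψ₀ c₀) {K : SimpleGraph V} (hK : K ≤ G \ M) (y : V) :
    dg K y + (if y ∈ M.support then 1 else 0) ≤ k := by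
  have hKG : K ≤ G := fun a b hab => (hK hab).1
  split_ifs with hy
  · obtain ⟨z, hz⟩ := (SimpleGraph.mem_support M).1 hy
    have h1 : dg K y < dg G y := dg_lt hKG (h.le hz) (fun h2 => (hK h2).2 hz)
    have h3 := h.deg y
    omega
  · have h1 := dg_mono hKG y
    have h3 := h.deg y
    omega

theorem sum_dg' (K : SimpleGraph V) : ∑ v, dg K v = 2 * K.edgeSet.ncard := by
  have h1 := SimpleGraph.sum_degrees_eq_twice_card_edges K
  have h2 : K.edgeSet.ncard = K.edgeFinset.card := by
    rw [← SimpleGraph.coe_edgeFinset, Set.ncard_coe_finset]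
  rw [h2, ← h1]
  apply Finset.sum_congr rfl
  intro v _
  rw [dg, ← SimpleGraph.card_neighborFinset_eq_degree, ← Set.ncard_coe_finset]
  congr 1
  ext w
  simp

theorem dg_pos' {K : SimpleGraph V} {x y : V} (hxy : K.Adj x y) : 1 ≤ dg K x := by
  rw [dg_eq]
  exact Finset.card_pos.2 ⟨y, by simp [hxy]⟩

theorem exists_adj {K : SimpleGraph V} {x : V} (hx : 1 ≤ dg K x) : ∃ y, K.Adj x y := by
  rw [dg_eq] at hx
  obtain ⟨y, hy⟩ := Finset.card_pos.1 hx
  exact ⟨y, (Finset.mem_filter.1 hy).2⟩

/-- the minimal counterexample has few vertices of small degree -/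
theorem few_small (h : Pre G M k ψ₀ c₀) {K : SimpleGraph V} (hK : K ≤ G \ M) {q : ℕ}
    (hq : 2 * q + 2 ≤ k) (hbad : ¬ Good G M k ψ₀ c₀ K)
    (hmin : ∀ A : SimpleGraph V, A < K → Good G M k ψ₀ c₀ A)
    (hE1 : ∀ x y, x ∉ M.support → K.Adj x y → dg K x ≤ q → k ≤ dg K y + q)
    (S : Finset V) (hS : ∀ x ∈ S, x ∉ M.support ∧ 1 ≤ dg K x ∧ dg K x ≤ q) :
    S.card ≤ (q - 1) * (univ.filter (fun y => ∃ x ∈ S, K.Adj x y)).card := by
  induction S using Finset.strongInduction with
  | H S ih =>
  rcases S.eq_empty_or_nonempty with rfl | hne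
  · simp
  have hind : ∀ x ∈ S, ∀ y, K.Adj x y → y ∉ S := by
    intro x hx y hxy hy
    have h1 := hE1 x y (hS x hx).1 hxy (hS x hx).2.2
    have h2 := (hS y hy).2.2
    omega
  -- a neighbour with few neighbours in `S`
  have hex : ∃ y, (∃ x ∈ S, K.Adj x y) ∧ (S.filter (fun x => K.Adj x y)).card + 1 ≤ q := by
    by_contra hcon
    push Not at hcon
    apply hbad
    let A : SimpleGraph V :=
      { Adj := fun u v => K.Adj u v ∧ u ∉ S ∧ v ∉ S
        symm := ⟨fun u v huv => ⟨huv.1.symm, huv.2.2, huv.2.1⟩⟩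
        loopless := ⟨fun u huv => huv.1.ne rfl⟩ }
    have hAK : A ≤ K := fun u v huv => huv.1
    have hlt : A < K := by
      refine lt_of_le_of_ne hAK ?_
      intro heq
      obtain ⟨x, hx⟩ := hne
      obtain ⟨y, hy⟩ := exists_adj (hS x hx).2.1
      rw [← heq] at hy
      exact hy.2.1 hx
    refine step h hK hAK (fun x => x ∈ S) (fun x hx => (hS x hx).1)
      (fun x y hx hxy => hind x hx y hxy) ?_ ?_ ?_ (hmin A hlt)
    · intro x hx
      have := (hS x hx).2.2
      omega
    · intro u v huv hn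
      by_contra hc
      push Not at hc
      exact hn ⟨huv, hc.1, hc.2⟩
    · intro x y hx hxy _
      have h1 := deg_supp h hK y
      have h2 := hcon y ⟨x, hx, hxy⟩
      have h3 : dg A y + (S.filter (fun x => K.Adj x y)).card ≤ dg K y := by
        rw [dg_eq, dg_eq, ← Finset.card_union_of_disjoint]
        · apply Finset.card_le_card
          intro z hz
          rw [Finset.mem_union, Finset.mem_filter, Finset.mem_filter] at hz
          rw [Finset.mem_filter]
          rcases hz with hz | hz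
          · exact ⟨Finset.mem_univ _, hz.2.1⟩
          · exact ⟨Finset.mem_univ _, hz.2.symm⟩
        · rw [Finset.disjoint_left]
          intro z hz hz'
          exact (Finset.mem_filter.1 hz).2.2.2 (Finset.mem_filter.1 hz').1
      have h4 : dg A x = 0 := by
        rw [dg_eq, Finset.card_eq_zero, Finset.filter_eq_empty_iff]
        intro z _ hz
        exact hz.2.1 hx
      have h5 := (hS x hx).2.2
      constructor <;> omega
  obtain ⟨y, ⟨x, hx, hxy⟩, hyc⟩ := hex
  set S₁ := S.filter (fun x => ¬ K.Adj x y) with hS₁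
  have hsub : S₁ ⊂ S := by
    refine Finset.ssubset_iff_of_subset (Finset.filter_subset _ _) |>.2 ⟨x, hx, ?_⟩
    intro hx'
    exact (Finset.mem_filter.1 hx').2 hxy
  have h1 := ih S₁ hsub (fun x hx => hS x (Finset.mem_of_mem_filter x hx))
  have h2 : (univ.filter (fun z => ∃ x ∈ S₁, K.Adj x z)).card + 1 ≤
      (univ.filter (fun z => ∃ x ∈ S, K.Adj x z)).card := by
    refine Finset.card_lt_card ?_
    refine Finset.ssubset_iff_of_subset ?_ |>.2 ⟨y, ?_, ?_⟩
    · intro z hz
      obtain ⟨-, x', hx', hxz⟩ := Finset.mem_filter.1 hz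
      exact Finset.mem_filter.2 ⟨Finset.mem_univ _, x', Finset.mem_of_mem_filter x' hx', hxz⟩
    · exact Finset.mem_filter.2 ⟨Finset.mem_univ _, x, hx, hxy⟩
    · intro hz
      obtain ⟨-, x', hx', hxz⟩ := Finset.mem_filter.1 hz
      exact (Finset.mem_filter.1 hx').2 hxz
  have h3 : S.card = (S.filter (fun x => K.Adj x y)).card + S₁.card :=
    (Finset.card_filter_add_card_filter_not (s := S) (fun x => K.Adj x y)).symm
  obtain ⟨r, rfl⟩ : ∃ r, q = r + 1 := ⟨q - 1, by omega⟩
  rw [Nat.add_sub_cancel] at h1 ⊢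
  calc S.card ≤ r + r * (univ.filter (fun z => ∃ x ∈ S₁, K.Adj x z)).card := by omega
    _ = r * ((univ.filter (fun z => ∃ x ∈ S₁, K.Adj x z)).card + 1) := by ring
    _ ≤ _ := Nat.mul_le_mul_left _ h2

/-- **sparse graphs** -/
theorem sparse (h : Pre G M k ψ₀ c₀) (s : ℕ) (hs1 : 1 ≤ s)
    (hs : ∀ K : SimpleGraph V, K ≤ G → K.edgeSet.ncard ≤ s * K.support.ncard)
    (hk : 4 * s ^ 2 + 6 * s + 1 ≤ k) : Good G M k ψ₀ c₀ (G \ M) := by
  by_contra hcon
  have hfin : {K : SimpleGraph V | K ≤ G \ M ∧ ¬ Good G M k ψ₀ c₀ K}.Finite := Set.toFinite _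
  obtain ⟨K, hKm, hmin'⟩ := hfin.exists_minimal ⟨G \ M, le_rfl, hcon⟩
  obtain ⟨hK, hbad⟩ := hKm
  have hmin : ∀ A : SimpleGraph V, A < K → Good G M k ψ₀ c₀ A := by
    intro A hA
    by_contra hno
    have := hmin' (y := A) ⟨hA.le.trans hK, hno⟩ hA.le
    exact absurd this (not_le_of_gt hA)
  have hKG : K ≤ G := fun a b hab => (hK hab).1
  set q := 2 * s with hq
  have hk' : q ^ 2 + 3 * q + 1 ≤ k := by
    rw [hq]
    nlinarith
  have hq2 : 2 ≤ q := by omega
  have hqq : 2 * q ≤ q ^ 2 := by nlinarith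
  have hq3 : 2 * q + 2 ≤ k := by omega
  have hne : K ≠ ⊥ := by
    rintro rfl
    exact hbad (good_bot h (by omega))
  have hdel : ∀ x y, K.Adj x y → K.deleteEdges {s(x, y)} < K := by
    intro x y hxy
    refine lt_of_le_of_ne (SimpleGraph.deleteEdges_le _) ?_
    intro heq
    have : (K.deleteEdges {s(x, y)}).Adj x y := by rw [heq]; exact hxy
    rw [SimpleGraph.deleteEdges_adj] at this
    exact this.2 rfl
  have hE1 : ∀ x y, x ∉ M.support → K.Adj x y → dg K x ≤ q → k ≤ dg K y + q := by
    intro x y hx hxy hdx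
    by_contra hc
    push Not at hc
    apply hbad
    refine single h hK hxy hx (by omega) ?_ (hmin _ (hdel x y hxy))
    split_ifs <;> omega
  have hout : ∀ w x, w ∈ M.support → K.Adj w x → x ∉ M.support := by
    intro w x hw hwx hx
    exact (hK hwx).2 (h.far1 w x hw hx (hKG hwx))
  have hE2 : ∀ w x, w ∈ M.support → K.Adj w x → dg K w ≤ q → k ≤ dg K x + q := by
    intro w x hw hwx hdw
    by_contra hc
    push Not at hc
    apply hbad
    exact single' h hK hwx hw (hout w x hw hwx) (by omega) (hmin _ (hdel w x hwx))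
  set S := univ.filter (fun x : V => x ∉ M.support ∧ 1 ≤ dg K x ∧ dg K x ≤ q) with hS
  set P := univ.filter (fun x : V => x ∈ M.support ∧ 1 ≤ dg K x ∧ dg K x ≤ q) with hP
  set Hg := univ.filter (fun x : V => k ≤ dg K x + q) with hHg
  set Md := univ.filter (fun x : V => q < dg K x ∧ dg K x + q < k) with hMd
  have hSc : S.card ≤ (q - 1) * Hg.card := by
    have h1 := few_small h hK hq3 hbad hmin hE1 S (fun x hx => (Finset.mem_filter.1 hx).2)
    refine h1.trans (Nat.mul_le_mul_left _ (Finset.card_le_card ?_))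
    intro y hy
    obtain ⟨-, x, hx, hxy⟩ := Finset.mem_filter.1 hy
    obtain ⟨-, hx1, hx2, hx3⟩ := Finset.mem_filter.1 hx
    exact Finset.mem_filter.2 ⟨Finset.mem_univ _, hE1 x y hx1 hxy hx3⟩
  have hPc : P.card ≤ 2 * Hg.card := by
    have hex : ∀ w : V, ∃ x, w ∈ P → K.Adj w x := by
      intro w
      by_cases hw : w ∈ P
      · obtain ⟨x, hx⟩ := exists_adj (Finset.mem_filter.1 hw).2.2.1
        exact ⟨x, fun _ => hx⟩
      · exact ⟨w, fun h => absurd h hw⟩
    choose f hf using hex
    refine Finset.card_le_mul_card_image_of_maps_to (f := f) ?_ 2 ?_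
    · intro w hw
      obtain ⟨-, hw1, hw2, hw3⟩ := Finset.mem_filter.1 hw
      exact Finset.mem_filter.2 ⟨Finset.mem_univ _, hE2 w (f w) hw1 (hf w hw) hw3⟩
    · intro x _
      by_cases hne' : (P.filter (fun w => f w = x)).Nonempty
      · obtain ⟨w, hw⟩ := hne'
        obtain ⟨hw1, hw2⟩ := Finset.mem_filter.1 hw
        obtain ⟨-, hw3, -⟩ := Finset.mem_filter.1 hw1
        obtain ⟨w', hw'⟩ := (SimpleGraph.mem_support M).1 hw3
        refine (Finset.card_le_card (t := {w, w'}) ?_).trans Finset.card_le_two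
        intro z hz
        obtain ⟨hz1, hz2⟩ := Finset.mem_filter.1 hz
        obtain ⟨-, hz3, -⟩ := Finset.mem_filter.1 hz1
        rw [Finset.mem_insert, Finset.mem_singleton]
        have a1 := hf w hw1
        have a2 := hf z hz1
        rw [hw2] at a1
        rw [hz2] at a2
        rcases h.far2 w z x hw3 hz3 (hKG a1) (hKG a2) with h3 | h3
        · exact Or.inl h3.symm
        · exact Or.inr (h.mat w z w' h3 hw')
      · rw [Finset.not_nonempty_iff_eq_empty] at hne'
        rw [hne']
        simp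
  have hsupp : K.support.ncard ≤ S.card + P.card + (Hg.card + Md.card) := by
    have hsub : K.support ⊆ ((S ∪ P ∪ (Hg ∪ Md) : Finset V) : Set V) := by
      intro x hx
      obtain ⟨y, hy⟩ := (SimpleGraph.mem_support K).1 hx
      have h1 := dg_pos' hy
      rw [Finset.mem_coe, Finset.mem_union, Finset.mem_union, Finset.mem_union]
      by_cases h2 : dg K x ≤ q
      · left
        by_cases h3 : x ∈ M.support
        · exact Or.inr (Finset.mem_filter.2 ⟨Finset.mem_univ _, h3, h1, h2⟩)
        · exact Or.inl (Finset.mem_filter.2 ⟨Finset.mem_univ _, h3, h1, h2⟩)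
      · right
        by_cases h3 : k ≤ dg K x + q
        · exact Or.inl (Finset.mem_filter.2 ⟨Finset.mem_univ _, h3⟩)
        · exact Or.inr (Finset.mem_filter.2 ⟨Finset.mem_univ _, by omega, by omega⟩)
    have h1 := Set.ncard_le_ncard hsub (Finset.finite_toSet _)
    rw [Set.ncard_coe_finset] at h1
    have h2 := Finset.card_union_le (S ∪ P) (Hg ∪ Md)
    have h3 := Finset.card_union_le S P
    have h4 := Finset.card_union_le Hg Md
    omega
  have hsum : Hg.card * (k - q) + Md.card * (q + 1) ≤ 2 * K.edgeSet.ncard := by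
    rw [← sum_dg']
    have hdisj : Disjoint Hg Md := by
      rw [Finset.disjoint_left]
      intro x h1 h2
      have a1 := (Finset.mem_filter.1 h1).2
      have a2 := (Finset.mem_filter.1 h2).2
      omega
    calc Hg.card * (k - q) + Md.card * (q + 1)
        ≤ ∑ v ∈ Hg, dg K v + ∑ v ∈ Md, dg K v := by
          refine add_le_add ?_ ?_
          · rw [← smul_eq_mul]
            refine Finset.card_nsmul_le_sum _ _ _ ?_
            intro x hx
            have := (Finset.mem_filter.1 hx).2
            omega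
          · rw [← smul_eq_mul]
            refine Finset.card_nsmul_le_sum _ _ _ ?_
            intro x hx
            have := (Finset.mem_filter.1 hx).2
            omega
      _ = ∑ v ∈ Hg ∪ Md, dg K v := (Finset.sum_union hdisj).symm
      _ ≤ ∑ v, dg K v := Finset.sum_le_sum_of_subset (Finset.subset_univ _)
  have hdens := hs K hKG
  have hfinal : Hg.card + Md.card = 0 := by
    set a := Hg.card
    set b := Md.card
    obtain ⟨r, hr⟩ : ∃ r, q = r + 1 := ⟨q - 1, by omega⟩
    obtain ⟨t, ht⟩ : ∃ t, k = q + t := ⟨k - q, by omega⟩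
    have e1 : K.support.ncard ≤ (q + 2) * a + b := by
      have : (q - 1) * a + 2 * a + (a + b) = (q + 2) * a + b := by
        rw [hr, Nat.add_sub_cancel]
        ring
      omega
    have e2 : 2 * K.edgeSet.ncard ≤ q * ((q + 2) * a + b) := by
      calc 2 * K.edgeSet.ncard ≤ 2 * (s * K.support.ncard) := Nat.mul_le_mul_left _ hdens
        _ = q * K.support.ncard := by rw [hq]; ring
        _ ≤ _ := Nat.mul_le_mul_left _ e1
    have e3 : k - q = t := by omega
    rw [e3] at hsum
    have e4 : q ^ 2 + 2 * q + 1 ≤ t := by omega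
    have e5 : a * (q ^ 2 + 2 * q + 1) ≤ a * t := Nat.mul_le_mul_left _ e4
    nlinarith
  have hS0 : S = ∅ := by
    rw [← Finset.card_eq_zero]
    have : Hg.card = 0 := by omega
    rw [this, mul_zero] at hSc
    omega
  have hP0 : P = ∅ := by
    rw [← Finset.card_eq_zero]
    omega
  have hH0 : Hg = ∅ := by
    rw [← Finset.card_eq_zero]
    omega
  have hM0 : Md = ∅ := by
    rw [← Finset.card_eq_zero]
    omega
  apply hne
  rw [eq_bot_iff]
  intro x y hxy
  exfalso
  have h1 := dg_pos' hxy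
  by_cases h2 : dg K x ≤ q
  · by_cases h3 : x ∈ M.support
    · have : x ∈ P := Finset.mem_filter.2 ⟨Finset.mem_univ _, h3, h1, h2⟩
      rw [hP0] at this
      simp at this
    · have : x ∈ S := Finset.mem_filter.2 ⟨Finset.mem_univ _, h3, h1, h2⟩
      rw [hS0] at this
      simp at this
  · by_cases h3 : k ≤ dg K x + q
    · have : x ∈ Hg := Finset.mem_filter.2 ⟨Finset.mem_univ _, h3⟩
      rw [hH0] at this
      simp at this
    · have : x ∈ Md := Finset.mem_filter.2 ⟨Finset.mem_univ _, by omega, by omega⟩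
      rw [hM0] at this
      simp at this

end Pool.Agent.X267.TC
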